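import Pool.Agent.H81.AC.Defs
import Pool.Agent.H66.DIM.If

/-!
# THEOREM AC (MP_8f2e1c, think 2046 / 2052): the topological dynamics, sections (4) and (5)

`TD`: the post-critical set `P` with levels `Lev` of all sizes at the critical value `f c`, `Stay` and persistence `PST` (H81/AC/Defs), `c` recurrent.
`str`: the closure `M` of the orbit of `f c` is minimal, open and closed in `P`, contains `c`, and `P \ M` is mapped into itself.
`Om f x y`: `y` is in the limit set of the orbit of `x`. `Ob f x`: the orbit.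
-/

set_option autoImplicit false

open Filter Topology Metric Set

namespace Pool.Agent.H93.AC

open Pool.Agent.H81.RW Pool.Agent.H81.AC
open Pool.Agent.H66.DIM (Mn Rg Clu)

/-- the orbit -/
def Ob (f : ℂ → ℂ) (x : ℂ) : Set ℂ := {y | ∃ n : ℕ, f^[n] x = y}

/-- `y` is in the limit set of the orbit of `x` -/
def Om (f : ℂ → ℂ) (x y : ℂ) : Prop := ∀ ε : ℝ, 0 < ε → ∀ N : ℕ, ∃ n ≥ N, ‖f^[n] x - y‖ < ε

/-- the setting -/
structure TD (f : ℂ → ℂ) (U P Cr E : Set ℂ) (ρ : ℂ → ENNReal) (c : ℂ) (R : ℕ) (L : ℝ) : Prop where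
  Pc : IsCompact P
  Pf : ∀ z ∈ P, f z ∈ P
  fc : ContinuousOn f P
  Cf : Cr.Finite
  CP : Cr ⊆ P
  cC : c ∈ Cr
  En : E ∈ 𝓝 c
  den : P ⊆ closure {y | ∃ a ∈ Cr, ∃ n : ℕ, f^[n] (f a) = y}
  rcr : Om f c c
  lev : ∀ κ : ℝ, 0 < κ → Lev f U P Cr E ρ (f c) R L κ
  stay : ∀ κ : ℝ, 0 < κ → ∃ κ' : ℝ, 0 < κ' ∧ Stay f U P Cr ρ L κ κ'
  pst : PST f U P Cr
  rg : Rg P

section basic

variable {f : ℂ → ℂ} {P : Set ℂ}

theorem it_P (Pf : ∀ z ∈ P, f z ∈ P) (n : ℕ) : ∀ z ∈ P, f^[n] z ∈ P := by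
  induction n with
  | zero => exact fun z hz => hz
  | succ n ih =>
    intro z hz
    rw [Function.iterate_succ_apply']
    exact Pf _ (ih z hz)

theorem it_c (Pf : ∀ z ∈ P, f z ∈ P) (fc : ContinuousOn f P) (n : ℕ) : ContinuousOn (f^[n]) P := by
  induction n with
  | zero => exact continuousOn_id
  | succ n ih =>
    rw [Function.iterate_succ']
    exact fc.comp ih fun z hz => it_P Pf n z hz

theorem ob_P (Pf : ∀ z ∈ P, f z ∈ P) {x : ℂ} (hx : x ∈ P) : Ob f x ⊆ P := by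
  rintro y ⟨n, rfl⟩
  exact it_P Pf n x hx

theorem ob_self (x : ℂ) : x ∈ Ob f x := ⟨0, rfl⟩

theorem cl_P (Pc : IsCompact P) (Pf : ∀ z ∈ P, f z ∈ P) {x : ℂ} (hx : x ∈ P) : closure (Ob f x) ⊆ P :=
  closure_minimal (ob_P Pf hx) Pc.isClosed

theorem cl_inv (Pc : IsCompact P) (Pf : ∀ z ∈ P, f z ∈ P) (fc : ContinuousOn f P) {x y : ℂ} (hx : x ∈ P)
    (hy : y ∈ closure (Ob f x)) : f y ∈ closure (Ob f x) := by
  have h1 : ContinuousWithinAt f (Ob f x) y := (fc y (cl_P Pc Pf hx hy)).mono (ob_P Pf hx)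
  have h2 := h1.mem_closure_image hy
  refine closure_mono ?_ h2
  rintro _ ⟨z, ⟨n, rfl⟩, rfl⟩
  exact ⟨n + 1, Function.iterate_succ_apply' f n x⟩

theorem cl_it (Pc : IsCompact P) (Pf : ∀ z ∈ P, f z ∈ P) (fc : ContinuousOn f P) {x y : ℂ} (hx : x ∈ P)
    (hy : y ∈ closure (Ob f x)) (n : ℕ) : f^[n] y ∈ closure (Ob f x) := by
  induction n with
  | zero => exact hy
  | succ n ih =>
    rw [Function.iterate_succ_apply']
    exact cl_inv Pc Pf fc hx ih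

theorem cl_cl (Pc : IsCompact P) (Pf : ∀ z ∈ P, f z ∈ P) (fc : ContinuousOn f P) {x y : ℂ} (hx : x ∈ P)
    (hy : y ∈ closure (Ob f x)) : closure (Ob f y) ⊆ closure (Ob f x) := by
  refine closure_minimal ?_ isClosed_closure
  rintro _ ⟨n, rfl⟩
  exact cl_it Pc Pf fc hx hy n

theorem om_cl {x y : ℂ} (h : Om f x y) : y ∈ closure (Ob f x) := by
  rw [Metric.mem_closure_iff]
  intro ε hε
  obtain ⟨n, -, hn⟩ := h ε hε 0
  refine ⟨f^[n] x, ⟨n, rfl⟩, ?_⟩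
  rw [dist_comm, dist_eq_norm]
  exact hn

theorem cl_or {x y : ℂ} (hy : y ∈ closure (Ob f x)) : (∃ n : ℕ, f^[n] x = y) ∨ Om f x y := by
  by_contra hcon
  push Not at hcon
  obtain ⟨h1, h2⟩ := hcon
  unfold Om at h2
  push Not at h2
  obtain ⟨ε, hε, N, hN⟩ := h2
  have h3 : ∀ K : ℕ, ∃ δ : ℝ, 0 < δ ∧ ∀ n < K, δ ≤ ‖f^[n] x - y‖ := by
    intro K
    induction K with
    | zero => exact ⟨1, one_pos, fun n hn => absurd hn (Nat.not_lt_zero n)⟩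
    | succ K ih =>
      obtain ⟨δ, hδ, h4⟩ := ih
      refine ⟨min δ ‖f^[K] x - y‖, lt_min hδ (norm_pos_iff.2 (sub_ne_zero.2 (h1 K))), fun n hn => ?_⟩
      rcases Nat.lt_or_ge n K with h5 | h5
      · exact (min_le_left _ _).trans (h4 n h5)
      · obtain rfl : n = K := by omega
        exact min_le_right _ _
  obtain ⟨δ, hδ, h4⟩ := h3 N
  rw [Metric.mem_closure_iff] at hy
  obtain ⟨z, ⟨n, rfl⟩, h5⟩ := hy (min ε δ) (lt_min hε hδ)
  rw [dist_comm, dist_eq_norm] at h5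
  rcases Nat.lt_or_ge n N with h6 | h6
  · exact absurd (h4 n h6) (not_le.2 (h5.trans_le (min_le_right _ _)))
  · exact absurd (hN n h6) (not_le.2 (h5.trans_le (min_le_left _ _)))

theorem om_of_shift {x y : ℂ} {k : ℕ} (h : Om f (f^[k] x) y) : Om f x y := by
  intro ε hε N
  obtain ⟨n, hn, h1⟩ := h ε hε N
  refine ⟨n + k, by omega, ?_⟩
  rw [Function.iterate_add_apply]
  exact h1

theorem om_shift {x y : ℂ} (k : ℕ) (h : Om f x y) : Om f (f^[k] x) y := by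
  intro ε hε N
  obtain ⟨n, hn, h1⟩ := h ε hε (N + k)
  refine ⟨n - k, by omega, ?_⟩
  rw [← Function.iterate_add_apply, show n - k + k = n by omega]
  exact h1

/-- continuity of the iterates up to the time `T` -/
theorem near_it (Pf : ∀ z ∈ P, f z ∈ P) (fc : ContinuousOn f P) {y : ℂ} (hy : y ∈ P) (T : ℕ) {ε : ℝ} (hε : 0 < ε) :
    ∃ r : ℝ, 0 < r ∧ ∀ z ∈ P, ‖z - y‖ < r → ∀ m ≤ T, ‖f^[m] z - f^[m] y‖ < ε := by
  induction T with
  | zero =>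
    refine ⟨ε, hε, fun z _ hzy m hm => ?_⟩
    obtain rfl : m = 0 := by omega
    exact hzy
  | succ T ih =>
    obtain ⟨r, hr, h1⟩ := ih
    have h2 := Metric.continuousWithinAt_iff.1 (it_c Pf fc (T + 1) y hy) ε hε
    obtain ⟨r', hr', h3⟩ := h2
    refine ⟨min r r', lt_min hr hr', fun z hz hzy m hm => ?_⟩
    rcases Nat.lt_or_ge T m with h4 | h4
    · obtain rfl : m = T + 1 := by omega
      have h5 := h3 hz (by rw [dist_eq_norm]; exact hzy.trans_le (min_le_right _ _))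
      rw [dist_eq_norm] at h5
      exact h5
    · exact h1 z hz (hzy.trans_le (min_le_left _ _)) m h4

theorem om_trans (Pf : ∀ z ∈ P, f z ∈ P) (fc : ContinuousOn f P) {x y z : ℂ} (hx : x ∈ P) (hy : y ∈ P)
    (h : Om f x y) (hz : z ∈ closure (Ob f y)) : Om f x z := by
  intro ε hε N
  rw [Metric.mem_closure_iff] at hz
  obtain ⟨_, ⟨m, rfl⟩, h1⟩ := hz (ε / 2) (half_pos hε)
  obtain ⟨r, hr, h2⟩ := near_it Pf fc hy m (half_pos hε)
  obtain ⟨n, hn, h3⟩ := h r hr N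
  have h4 := h2 _ (it_P Pf n x hx) h3 m le_rfl
  refine ⟨m + n, by omega, ?_⟩
  rw [Function.iterate_add_apply]
  rw [dist_comm, dist_eq_norm] at h1
  calc ‖f^[m] (f^[n] x) - z‖ = ‖(f^[m] (f^[n] x) - f^[m] y) + (f^[m] y - z)‖ := by ring_nf
    _ ≤ ‖f^[m] (f^[n] x) - f^[m] y‖ + ‖f^[m] y - z‖ := norm_add_le _ _
    _ < ε := by linarith

/-- visits of the orbit of `x` near `v` with bounded gaps pass to the limit points -/
theorem lim_time (Pf : ∀ z ∈ P, f z ∈ P) (fc : ContinuousOn f P) {x y : ℂ} (hx : x ∈ P) (hy : y ∈ P)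
    (h : Om f x y) {v : ℂ} {κ : ℝ} {T N₀ : ℕ} (hT : ∀ n ≥ N₀, ∃ m ≤ T, ‖f^[m] (f^[n] x) - v‖ < κ) :
    ∃ m ≤ T, ‖f^[m] y - v‖ ≤ κ := by
  by_contra hcon
  push Not at hcon
  have h1 : ∀ K : ℕ, (∀ m ≤ K, κ < ‖f^[m] y - v‖) → ∃ δ : ℝ, 0 < δ ∧ ∀ m ≤ K, κ + δ ≤ ‖f^[m] y - v‖ := by
    intro K
    induction K with
    | zero =>
      intro h2
      refine ⟨‖f^[0] y - v‖ - κ, by linarith [h2 0 le_rfl], fun m hm => ?_⟩
      obtain rfl : m = 0 := by omega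
      linarith
    | succ K ih =>
      intro h2
      obtain ⟨δ, hδ, h3⟩ := ih fun m hm => h2 m (by omega)
      refine ⟨min δ (‖f^[K + 1] y - v‖ - κ), lt_min hδ (by linarith [h2 (K + 1) le_rfl]), fun m hm => ?_⟩
      rcases Nat.lt_or_ge K m with h4 | h4
      · obtain rfl : m = K + 1 := by omega
        linarith [min_le_right δ (‖f^[K + 1] y - v‖ - κ)]
      · linarith [min_le_left δ (‖f^[K + 1] y - v‖ - κ), h3 m h4]
  obtain ⟨δ, hδ, h2⟩ := h1 T hcon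
  obtain ⟨r, hr, h3⟩ := near_it Pf fc hy T hδ
  obtain ⟨n, hn, h4⟩ := h r hr N₀
  obtain ⟨m, hm, h5⟩ := hT n hn
  have h6 := h3 _ (it_P Pf n x hx) h4 m hm
  have h7 := h2 m hm
  have h8 : ‖f^[m] y - v‖ ≤ ‖f^[m] (f^[n] x) - f^[m] y‖ + ‖f^[m] (f^[n] x) - v‖ := by
    calc ‖f^[m] y - v‖ = ‖(f^[m] y - f^[m] (f^[n] x)) + (f^[m] (f^[n] x) - v)‖ := by ring_nf
      _ ≤ ‖f^[m] y - f^[m] (f^[n] x)‖ + ‖f^[m] (f^[n] x) - v‖ := norm_add_le _ _
      _ = _ := by rw [norm_sub_rev]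
  linarith

theorem ent_ex {E : Set ℂ} {u : ℂ → ℝ} {x : ℂ} {j : ℕ} (h : Hit f E u x j) : ∃ k ≤ j, Ent f E u x k := by
  classical
  refine ⟨Nat.find ⟨j, h⟩, Nat.find_min' _ h, Nat.find_spec ⟨j, h⟩, fun i hi => Nat.find_min _ hi⟩

/-- if all points with `u = 1` have the entrance time `k` then the hits have gaps at most `k + 1` -/
theorem gaps {E : Set ℂ} {u : ℂ → ℝ} (Pf : ∀ z ∈ P, f z ∈ P) {k : ℕ} (hB : ∀ p ∈ P, u p = 1 → Ent f E u p k) {x : ℂ}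
    (hx : x ∈ P) {n₀ : ℕ} (h0 : Hit f E u x n₀) : ∀ n ≥ n₀ + 1, ∃ j ≤ k, Hit f E u (f^[n] x) j := by
  have hs : ∀ n : ℕ, Hit f E u x n → Hit f E u (f^[n + 1] x) k := by
    intro n hn
    exact (hB _ (it_P Pf (n + 1) x hx) hn.2).1
  intro n hn
  induction n, hn using Nat.le_induction with
  | base => exact ⟨k, le_rfl, hs n₀ h0⟩
  | succ n hn ih =>
    obtain ⟨j, hj, h1⟩ := ih
    rcases Nat.eq_zero_or_pos j with h2 | h2
    · subst h2
      have h3 : Hit f E u x n := by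
        have := hit_iter.1 h1
        rw [Nat.add_zero] at this
        exact this
      exact ⟨k, le_rfl, hs n h3⟩
    · refine ⟨j - 1, by omega, hit_iter.2 ?_⟩
      rw [show n + 1 + (j - 1) = n + j by omega]
      exact hit_iter.1 h1

end basic

section main

variable {f : ℂ → ℂ} {U P Cr E : Set ℂ} {ρ : ℂ → ENNReal} {c : ℂ} {R : ℕ} {L : ℝ}

theorem TD.c_P (h : TD f U P Cr E ρ c R L) : c ∈ P := h.CP h.cC

theorem TD.v_P (h : TD f U P Cr E ρ c R L) : f c ∈ P := h.Pf c h.c_P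

theorem TD.a_P (h : TD f U P Cr E ρ c R L) {a : ℂ} (ha : a ∈ Cr) : f a ∈ P := h.Pf a (h.CP ha)

/-- points of `P` near `c` are hits -/
theorem TD.hit_near (h : TD f U P Cr E ρ c R L) {u : ℂ → ℝ} (hu : UM P u) (huv : u (f c) = 1) :
    ∃ r : ℝ, 0 < r ∧ ∀ x ∈ P, ‖x - c‖ < r → x ∈ E ∧ u (f x) = 1 := by
  obtain ⟨r₁, hr₁, h1⟩ := Metric.mem_nhds_iff.1 h.En
  obtain ⟨r₂, hr₂, h2⟩ := Metric.eventually_nhds_iff.1 (hu.lc _ h.v_P)
  obtain ⟨r₃, hr₃, h3⟩ := Metric.continuousWithinAt_iff.1 (h.fc c h.c_P) r₂ hr₂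
  refine ⟨min r₁ r₃, lt_min hr₁ hr₃, fun x hx hxc => ⟨h1 ?_, ?_⟩⟩
  · rw [mem_ball, dist_eq_norm]
    exact hxc.trans_le (min_le_left _ _)
  · rw [h2 (h3 hx (by rw [dist_eq_norm]; exact hxc.trans_le (min_le_right _ _))), huv]

theorem TD.hits (h : TD f U P Cr E ρ c R L) {u : ℂ → ℝ} (hu : UM P u) (huv : u (f c) = 1) {x : ℂ} (hx : x ∈ P)
    (hO : Om f x c) (N : ℕ) : ∃ n ≥ N, Hit f E u x n := by
  obtain ⟨r, hr, h1⟩ := h.hit_near hu huv
  obtain ⟨n, hn, h2⟩ := hO r hr N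
  obtain ⟨h3, h4⟩ := h1 _ (it_P h.Pf n x hx) h2
  exact ⟨n, hn, h3, by rw [Function.iterate_succ_apply']; exact h4⟩

theorem TD.ent (h : TD f U P Cr E ρ c R L) {u : ℂ → ℝ} (hu : UM P u) (huv : u (f c) = 1) {x : ℂ} (hx : x ∈ P)
    (hO : Om f x c) (n : ℕ) : ∃ k, Ent f E u (f^[n] x) k := by
  obtain ⟨k, -, hk⟩ := h.hits hu huv (it_P h.Pf n x hx) (om_shift n hO) 0
  obtain ⟨j, -, hj⟩ := ent_ex hk
  exact ⟨j, hj⟩

/-- (4): the critical value is in the closure of the orbit of every point of `closure (Ob f x)` if `c` is in the limit set of `x` -/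
theorem TD.four (h : TD f U P Cr E ρ c R L) {x : ℂ} (hx : x ∈ P) (hO : Om f x c) {y : ℂ} (hy : y ∈ closure (Ob f x)) :
    f c ∈ closure (Ob f y) := by
  have hyP : y ∈ P := cl_P h.Pc h.Pf hx hy
  rcases cl_or hy with ⟨n, rfl⟩ | hy1
  · exact cl_inv h.Pc h.Pf h.fc hyP (om_cl (om_shift n hO))
  · rw [Metric.mem_closure_iff]
    intro ε hε
    obtain ⟨κ, hκ⟩ : ∃ κ, κ = ε / 2 := ⟨_, rfl⟩
    have hκ0 : 0 < κ := by rw [hκ]; exact half_pos hε
    obtain ⟨u, s, hs, hu, huv, hsup, hL⟩ := h.lev κ hκ0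
    have key : ∃ T N₀ : ℕ, ∀ n ≥ N₀, ∃ m ≤ T, ‖f^[m] (f^[n] x) - f c‖ < κ := by
      by_cases hB : ∃ k, ∀ p ∈ P, u p = 1 → Ent f E u p k
      · obtain ⟨k, hB⟩ := hB
        obtain ⟨n₀, -, h0⟩ := h.hits hu huv hx hO 0
        refine ⟨k + 1, n₀ + 1, fun n hn => ?_⟩
        obtain ⟨j, hj, h1⟩ := gaps h.Pf hB hx h0 n hn
        refine ⟨j + 1, by omega, hsup _ ?_⟩
        rw [h1.2]
        exact one_pos
      · obtain ⟨T, hT⟩ := h.pst s R hs
        refine ⟨T, 0, fun n _ => ?_⟩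
        obtain ⟨k, hk⟩ := h.ent hu huv hx hO n
        rcases hL _ (it_P h.Pf n x hx) k hk with ⟨k', -, h1⟩ | ⟨w, m, O, O₁, -, -, -, -, -, -, hPQ, hxO, -, hO₁, hfr⟩
        · exact absurd ⟨k', h1⟩ hB
        · refine ⟨m, hT _ (it_P h.Pf n x hx) m O O₁ hPQ hxO hfr, ?_⟩
          have h2 := hO₁ (hPQ.mp _ hxO)
          rw [mem_ball, dist_eq_norm] at h2
          exact h2
    obtain ⟨T, N₀, hT⟩ := key
    obtain ⟨m, -, hm⟩ := lim_time h.Pf h.fc hx hyP hy1 hT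
    refine ⟨f^[m] y, ⟨m, rfl⟩, ?_⟩
    rw [dist_comm, dist_eq_norm]
    linarith

/-- (5), the exit argument: the limit sets are in the closure of the orbit of `f c` -/
theorem TD.five (h : TD f U P Cr E ρ c R L) {x : ℂ} (hx : x ∈ P) (hO : Om f x c) {y : ℂ} (hy : Om f x y) :
    y ∈ closure (Ob f (f c)) := by
  by_contra hcon
  obtain ⟨M, hM⟩ : ∃ M, M = closure (Ob f (f c)) := ⟨_, rfl⟩
  rw [← hM] at hcon
  have hMc : IsClosed M := by rw [hM]; exact isClosed_closure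
  have hMn : M.Nonempty := ⟨f c, by rw [hM]; exact subset_closure (ob_self _)⟩
  have hMf : ∀ n : ℕ, ∀ z ∈ M, f^[n] z ∈ M := by
    intro n z hz
    rw [hM] at hz ⊢
    exact cl_it h.Pc h.Pf h.fc h.v_P hz n
  have hyP : y ∈ P := cl_P h.Pc h.Pf hx (om_cl hy)
  have hv : f c ∈ closure (Ob f y) := h.four hx hO (om_cl hy)
  have hOv : Om f x (f c) := om_trans h.Pf h.fc hx hyP hy hv
  have hd0 : 0 < infDist y M := (hMc.notMem_iff_infDist_pos hMn).1 hcon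
  -- the critical points off `M`
  obtain ⟨δ₂, hδ₂, hcr⟩ : ∃ δ₂ : ℝ, 0 < δ₂ ∧ ∀ a ∈ Cr, a ∉ M → δ₂ ≤ infDist a M := by
    have h1 : (Cr \ M).Finite := h.Cf.subset sdiff_subset
    rcases (Cr \ M).eq_empty_or_nonempty with h2 | h2
    · refine ⟨1, one_pos, fun a ha haM => ?_⟩
      have : a ∈ Cr \ M := ⟨ha, haM⟩
      rw [h2] at this
      exact absurd this (notMem_empty a)
    · obtain ⟨a₀, ha₀, h3⟩ := Set.exists_min_image (Cr \ M) (fun a => infDist a M) h1 h2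
      exact ⟨infDist a₀ M, (hMc.notMem_iff_infDist_pos hMn).1 ha₀.2, fun a ha haM => h3 a ⟨ha, haM⟩⟩
  obtain ⟨δ₁, hδ₁⟩ : ∃ δ₁, δ₁ = min (infDist y M) δ₂ / 2 := ⟨_, rfl⟩
  have hδ₁0 : 0 < δ₁ := by rw [hδ₁]; exact half_pos (lt_min hd0 hδ₂)
  have hδ₁y : 2 * δ₁ ≤ infDist y M := by
    rw [hδ₁]
    linarith [min_le_left (infDist y M) δ₂]
  have hδ₁c : 2 * δ₁ ≤ δ₂ := by
    rw [hδ₁]
    linarith [min_le_right (infDist y M) δ₂]
  obtain ⟨κ', hκ', hst⟩ := h.stay δ₁ hδ₁0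
  obtain ⟨κ, hκ⟩ : ∃ κ, κ = min κ' δ₁ := ⟨_, rfl⟩
  have hκ0 : 0 < κ := by rw [hκ]; exact lt_min hκ' hδ₁0
  obtain ⟨u, s, hs, hu, huv, hsup, hL⟩ := h.lev κ hκ0
  obtain ⟨T, hT⟩ := h.pst s R hs
  obtain ⟨n₀, -, h0⟩ := h.hits hu huv hx hO 0
  -- long stays near `M`
  obtain ⟨ζ, hζ, h1⟩ := near_it h.Pf h.fc h.v_P (T + 1) hδ₁0
  obtain ⟨n, hn, h2⟩ := hOv ζ hζ (n₀ + 1)
  obtain ⟨z, hz⟩ : ∃ z, z = f^[n] x := ⟨_, rfl⟩
  rw [← hz] at h2
  have hzP : z ∈ P := by rw [hz]; exact it_P h.Pf n x hx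
  have h3 : ∀ i ≤ T + 1, infDist (f^[i] z) M < δ₁ := by
    intro i hi
    have h4 := h1 z hzP h2 i hi
    refine lt_of_le_of_lt (infDist_le_dist_of_mem (hMf i (f c) ?_)) (by rw [dist_eq_norm]; exact h4)
    rw [hM]
    exact subset_closure (ob_self _)
  have h5 : ∃ k, δ₁ ≤ infDist (f^[k] z) M := by
    obtain ⟨k, -, hk⟩ := om_shift n hy δ₁ hδ₁0 0
    rw [← hz] at hk
    refine ⟨k, ?_⟩
    have h6 := infDist_le_infDist_add_dist (s := M) (x := y) (y := f^[k] z)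
    rw [dist_comm, dist_eq_norm] at h6
    linarith
  classical
  obtain ⟨k, hk⟩ : ∃ k, k = Nat.find h5 := ⟨_, rfl⟩
  have hk1 : δ₁ ≤ infDist (f^[k] z) M := by rw [hk]; exact Nat.find_spec h5
  have hk2 : ∀ i < k, infDist (f^[i] z) M < δ₁ := by
    intro i hi
    rw [hk] at hi
    exact not_le.1 (Nat.find_min h5 hi)
  have hkT : T + 1 < k := by
    by_contra h6
    exact absurd (h3 k (by omega)) (not_lt.2 hk1)
  -- the outcome at the exit
  have hze : f^[k] z = f^[k + n] x := by rw [hz, Function.iterate_add_apply]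
  obtain ⟨q, hq⟩ := h.ent hu huv hx hO (k + n)
  rw [← hze] at hq
  rcases hL _ (it_P h.Pf k z hzP) q hq with ⟨k', hk', hB⟩ | ⟨w, m, O, O₁, hw, hw1, hws, hwl, hm1, -, hPQ, hxO, hwO, hO₁, hfr⟩
  · obtain ⟨j, hj, h6⟩ := gaps h.Pf hB hx h0 (k + n) (by omega)
    rw [← hze] at h6
    exact hq.2 j (by omega) h6
  · obtain ⟨O', hzO, hPQ'⟩ := hst w z k hw hwl hzP hw1 (fun y' hy' => (hws y' hy').trans_le (by rw [hκ]; exact min_le_left _ _))
      (by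
        intro i hi a ha hia
        have h6 : infDist a M < δ₂ := by
          have h7 := infDist_le_infDist_add_dist (s := M) (x := a) (y := f^[i] z)
          rw [dist_comm, dist_eq_norm] at h7
          linarith [hk2 i hi]
        have h8 : a ∈ M := by
          by_contra h9
          exact absurd (hcr a ha h9) (not_le.2 h6)
        have h10 := hMf (k - i) a h8
        by_contra h11
        have h12 : 0 < w (f^[k - i] a) := lt_of_le_of_ne (hw.lo _) (Ne.symm h11)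
        have h13 := hws _ h12
        have h14 := infDist_le_dist_of_mem (x := f^[k] z) h10
        rw [dist_comm, dist_eq_norm] at h14
        have h15 : κ ≤ δ₁ := by rw [hκ]; exact min_le_right _ _
        linarith)
      m O O₁ R hPQ hxO hwO
    have h6 := hT z hzP (m + k) O' O₁ hPQ' hzO hfr
    omega

theorem TD.rec_v (h : TD f U P Cr E ρ c R L) : Om f (f c) c := by
  have h1 := om_shift 1 h.rcr
  exact h1

/-- THE STRUCTURE THEOREM -/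
theorem TD.str (h : TD f U P Cr E ρ c R L) : Mn f P (closure (Ob f (f c))) ∧ c ∈ closure (Ob f (f c)) ∧
    ∀ x ∈ P, x ∉ closure (Ob f (f c)) → f x ∉ closure (Ob f (f c)) := by
  obtain ⟨B, hB⟩ : ∃ B, B = {a | a ∈ Cr ∧ Om f (f a) c} := ⟨_, rfl⟩
  obtain ⟨G, hG⟩ : ∃ G, G = {a | a ∈ Cr ∧ ¬ Om f (f a) c} := ⟨_, rfl⟩
  obtain ⟨M, hM⟩ : ∃ M, M = ⋃ a ∈ B, closure (Ob f (f a)) := ⟨_, rfl⟩
  obtain ⟨F, hF⟩ : ∃ F, F = ⋃ a ∈ G, closure (Ob f (f a)) := ⟨_, rfl⟩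
  obtain ⟨M₀, hM₀⟩ : ∃ M₀, M₀ = closure (Ob f (f c)) := ⟨_, rfl⟩
  have hBf : B.Finite := h.Cf.subset (by rw [hB]; exact fun a ha => ha.1)
  have hGf : G.Finite := h.Cf.subset (by rw [hG]; exact fun a ha => ha.1)
  have hMcl : IsClosed M := by rw [hM]; exact hBf.isClosed_biUnion fun _ _ => isClosed_closure
  have hFcl : IsClosed F := by rw [hF]; exact hGf.isClosed_biUnion fun _ _ => isClosed_closure
  have hcB : c ∈ B := by rw [hB]; exact ⟨h.cC, h.rec_v⟩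
  have hMM : M₀ ⊆ M := by
    rw [hM, hM₀]
    exact subset_biUnion_of_mem (u := fun a => closure (Ob f (f a))) hcB
  have hPMF : P ⊆ M ∪ F := by
    refine h.den.trans (closure_minimal ?_ (hMcl.union hFcl))
    rintro _ ⟨a, ha, n, rfl⟩
    by_cases h1 : Om f (f a) c
    · left
      rw [hM]
      exact mem_iUnion₂.2 ⟨a, by rw [hB]; exact ⟨ha, h1⟩, subset_closure ⟨n, rfl⟩⟩
    · right
      rw [hF]
      exact mem_iUnion₂.2 ⟨a, by rw [hG]; exact ⟨ha, h1⟩, subset_closure ⟨n, rfl⟩⟩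
  have hMP : M ⊆ P := by
    rw [hM]
    refine iUnion₂_subset fun a ha => cl_P h.Pc h.Pf (h.a_P ?_)
    rw [hB] at ha
    exact ha.1
  have hFP : F ⊆ P := by
    rw [hF]
    refine iUnion₂_subset fun a ha => cl_P h.Pc h.Pf (h.a_P ?_)
    rw [hG] at ha
    exact ha.1
  have hFf : ∀ x ∈ F, f x ∈ F := by
    intro x hx
    rw [hF] at hx ⊢
    obtain ⟨a, ha, h1⟩ := mem_iUnion₂.1 hx
    refine mem_iUnion₂.2 ⟨a, ha, cl_inv h.Pc h.Pf h.fc (h.a_P ?_) h1⟩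
    rw [hG] at ha
    exact ha.1
  have hv4 : ∀ y ∈ M, f c ∈ closure (Ob f y) := by
    intro y hy
    rw [hM] at hy
    obtain ⟨a, ha, h1⟩ := mem_iUnion₂.1 hy
    rw [hB] at ha
    exact h.four (h.a_P ha.1) ha.2 h1
  have hdis : ∀ y ∈ M, y ∉ F := by
    intro y hy hyF
    rw [hF] at hyF
    obtain ⟨b, hb, h1⟩ := mem_iUnion₂.1 hyF
    rw [hG] at hb
    have hbP := h.a_P hb.1
    have h2 : f c ∈ closure (Ob f (f b)) := cl_cl h.Pc h.Pf h.fc hbP h1 (hv4 y hy)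
    have h3 : c ∈ closure (Ob f (f b)) := cl_cl h.Pc h.Pf h.fc hbP h2 (om_cl h.rec_v)
    apply hb.2
    rcases cl_or h3 with ⟨n, hn⟩ | h4
    · apply om_of_shift (k := n)
      rw [hn]
      exact h.rcr
    · exact h4
  have hMeq : M = M₀ := by
    refine Subset.antisymm ?_ hMM
    intro q hq
    by_contra hq0
    -- `q` is isolated
    have h1 : ∀ a ∈ B, ∃ ε : ℝ, 0 < ε ∧ ∃ N : ℕ, ∀ n ≥ N, ε ≤ ‖f^[n] (f a) - q‖ := by
      intro a ha
      rw [hB] at ha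
      have h2 : ¬ Om f (f a) q := by
        intro h3
        apply hq0
        rw [hM₀]
        exact h.five (h.a_P ha.1) ha.2 h3
      unfold Om at h2
      push Not at h2
      obtain ⟨ε, hε, N, hN⟩ := h2
      exact ⟨ε, hε, N, hN⟩
    choose! ε hε N hN using h1
    obtain ⟨S, hS⟩ : ∃ S, S = ⋃ a ∈ B, (fun n => f^[n] (f a)) '' {n | n < N a} := ⟨_, rfl⟩
    have hSf : S.Finite := by
      rw [hS]
      exact hBf.biUnion fun a _ => (finite_lt_nat _).image _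
    have hSc : IsClosed (S \ {q}) := (hSf.subset sdiff_subset).isClosed
    obtain ⟨ε₁, hε₁, h2⟩ := Metric.mem_nhds_iff.1 (hSc.isOpen_compl.mem_nhds (show q ∈ (S \ {q})ᶜ from fun h3 => h3.2 rfl))
    obtain ⟨ε₂, hε₂, h3⟩ := Metric.mem_nhds_iff.1 (hFcl.isOpen_compl.mem_nhds (show q ∈ Fᶜ from hdis q hq))
    have hM₀c : IsClosed M₀ := by rw [hM₀]; exact isClosed_closure
    obtain ⟨ε₃, hε₃, h4⟩ := Metric.mem_nhds_iff.1 (hM₀c.isOpen_compl.mem_nhds (show q ∈ M₀ᶜ from hq0))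
    obtain ⟨ε₄, hε₄, h5⟩ : ∃ ε₄ : ℝ, 0 < ε₄ ∧ ∀ a ∈ B, ε₄ ≤ ε a := by
      obtain ⟨a₀, ha₀, h6⟩ := Set.exists_min_image B ε hBf ⟨c, hcB⟩
      exact ⟨ε a₀, hε a₀ ha₀, h6⟩
    obtain ⟨A, r₁, hr₁, hrg⟩ := h.rg
    obtain ⟨m, hm⟩ : ∃ m, m = min (min ε₁ ε₂) (min ε₃ ε₄) := ⟨_, rfl⟩
    have hm0 : 0 < m := by rw [hm]; exact lt_min (lt_min hε₁ hε₂) (lt_min hε₃ hε₄)
    have hA : 0 < |A| + 1 := by positivity
    obtain ⟨r, hr⟩ : ∃ r, r = min (r₁ / 2) (m / (2 * (|A| + 1))) := ⟨_, rfl⟩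
    have hr0 : 0 < r := by rw [hr]; exact lt_min (half_pos hr₁) (by positivity)
    obtain ⟨y, hyP, hy1, hy2⟩ := hrg q (hMP hq) r hr0 (by
      rw [hr]
      exact lt_of_le_of_lt (min_le_left _ _) (by linarith))
    have hym : ‖y - q‖ < m := by
      have h6 : r ≤ m / (2 * (|A| + 1)) := by rw [hr]; exact min_le_right _ _
      rw [le_div_iff₀ (by positivity)] at h6
      have h7 : A * r ≤ |A| * r := mul_le_mul_of_nonneg_right (le_abs_self A) hr0.le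
      nlinarith [abs_nonneg A]
    have hm1 : m ≤ ε₁ := by rw [hm]; exact (min_le_left _ _).trans (min_le_left _ _)
    have hm2 : m ≤ ε₂ := by rw [hm]; exact (min_le_left _ _).trans (min_le_right _ _)
    have hm3 : m ≤ ε₃ := by rw [hm]; exact (min_le_right _ _).trans (min_le_left _ _)
    have hm4 : m ≤ ε₄ := by rw [hm]; exact (min_le_right _ _).trans (min_le_right _ _)
    have hball : ∀ ε' : ℝ, m ≤ ε' → y ∈ ball q ε' := by
      intro ε' hε'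
      rw [mem_ball, dist_eq_norm]
      linarith
    have hyF : y ∉ F := h3 (hball ε₂ hm2)
    have hyM₀ : y ∉ M₀ := h4 (hball ε₃ hm3)
    have hyM : y ∈ M := (hPMF hyP).resolve_right hyF
    rw [hM] at hyM
    obtain ⟨a, ha, h6⟩ := mem_iUnion₂.1 hyM
    have ha' := ha
    rw [hB] at ha'
    rcases cl_or h6 with ⟨n, hn⟩ | h7
    · have h8 : n < N a := by
        by_contra h9
        have h10 := hN a ha n (by omega)
        rw [hn] at h10
        linarith [h5 a ha]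
      have h9 : y ∈ S := by
        rw [hS]
        exact mem_iUnion₂.2 ⟨a, ha, n, h8, hn⟩
      refine h2 (hball ε₁ hm1) ⟨h9, fun h10 => ?_⟩
      rw [mem_singleton_iff] at h10
      rw [h10, sub_self, norm_zero] at hy1
      linarith
    · apply hyM₀
      rw [hM₀]
      exact h.five (h.a_P ha'.1) ha'.2 h7
  have hPF : P \ M₀ = F := by
    ext x
    constructor
    · rintro ⟨h1, h2⟩
      rw [← hMeq] at h2
      exact (hPMF h1).resolve_left h2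
    · intro h1
      refine ⟨hFP h1, fun h2 => ?_⟩
      rw [← hMeq] at h2
      exact hdis x h2 h1
  rw [← hM₀]
  refine ⟨⟨by rw [hM₀]; exact isClosed_closure, ⟨f c, by rw [hM₀]; exact subset_closure (ob_self _)⟩, hMM.trans hMP, ?_, ?_, ?_⟩, ?_, ?_⟩
  · intro x hx
    rw [hM₀] at hx ⊢
    exact cl_inv h.Pc h.Pf h.fc h.v_P hx
  · intro x hx
    have h1 : f c ∈ closure (Ob f x) := hv4 x (hMM hx)
    have h2 : closure (Ob f (f c)) ⊆ closure (Ob f x) := cl_cl h.Pc h.Pf h.fc (hMP (hMM hx)) h1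
    rw [hM₀]
    exact h2
  · rw [hPF]
    exact hFcl
  · rw [hM₀]
    exact om_cl h.rec_v
  · intro x hx hxM hfx
    have h1 : x ∈ F := by rw [← hPF]; exact ⟨hx, hxM⟩
    have h2 := hFf x h1
    rw [← hPF] at h2
    exact h2.2 hfx

/-- points of `P` near a minimal piece are in it -/
theorem mn_near (Pc : IsCompact P) {M : Set ℂ} (hM : Mn f P M) : ∃ d : ℝ, 0 < d ∧ ∀ x ∈ M, ∀ y ∈ P, ‖y - x‖ < d → y ∈ M := by
  have h1 : IsCompact M := Pc.of_isClosed_subset hM.cl hM.sub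
  have h2 : Disjoint M (P \ M) := disjoint_sdiff_right
  obtain ⟨d, hd, h3⟩ := h2.exists_thickenings h1 hM.off
  refine ⟨d, hd, fun x hx y hy hxy => ?_⟩
  by_contra h4
  have h5 : y ∈ thickening d M := mem_thickening_iff.2 ⟨x, hx, by rw [dist_eq_norm]; exact hxy⟩
  have h6 : y ∈ thickening d (P \ M) := self_subset_thickening hd _ ⟨hy, h4⟩
  exact (Set.disjoint_left.1 h3 h5) h6

theorem mn_rg (Pc : IsCompact P) {M : Set ℂ} (hM : Mn f P M) (hR : Rg P) : Rg M := by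
  obtain ⟨d, hd, h1⟩ := mn_near Pc hM
  obtain ⟨A, r₁, hr₁, h2⟩ := hR
  have hA : 0 < |A| + 1 := by positivity
  refine ⟨A, min r₁ (d / (|A| + 1)), lt_min hr₁ (by positivity), fun x hx r hr hr2 => ?_⟩
  obtain ⟨y, hy, h3, h4⟩ := h2 x (hM.sub hx) r hr (hr2.trans_le (min_le_left _ _))
  refine ⟨y, h1 x hx y hy ?_, h3, h4⟩
  have h5 : r < d / (|A| + 1) := hr2.trans_le (min_le_right _ _)
  rw [lt_div_iff₀ hA] at h5
  have h6 : A * r ≤ |A| * r := mul_le_mul_of_nonneg_right (le_abs_self A) hr.le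
  nlinarith

/-- clusters at arbitrarily small scales at the point `v` -/
def Clv (P : Set ℂ) (v : ℂ) : Prop :=
  ∃ ε : ℝ, 0 < ε ∧ ∀ r₁ : ℝ, 0 < r₁ → ∃ r : ℝ, 0 < r ∧ r < r₁ ∧ ∃ A ⊆ P, v ∈ A ∧
    (∀ x ∈ A, ∀ y ∈ A, ‖x - y‖ ≤ r) ∧ ∀ x ∈ A, ∀ y ∈ P, y ∉ A → ε * r ≤ ‖x - y‖

theorem mn_clu (Pc : IsCompact P) {M : Set ℂ} (hM : Mn f P M) {v : ℂ} (hv : v ∈ M) (hC : Clv P v) : Clu M := by
  obtain ⟨d, hd, h1⟩ := mn_near Pc hM
  obtain ⟨ε, hε, h2⟩ := hC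
  refine ⟨ε, hε, fun r₁ hr₁ => ?_⟩
  obtain ⟨r, hr, hr2, A, hA, hvA, h3, h4⟩ := h2 (min r₁ d) (lt_min hr₁ hd)
  refine ⟨r, hr, hr2.trans_le (min_le_left _ _), A, fun x hx => ?_, ⟨v, hvA⟩, h3, fun x hx y hy => h4 x hx y (hM.sub hy)⟩
  exact h1 v hv x (hA hx) (lt_of_le_of_lt (h3 x hx v hvA) (hr2.trans_le (min_le_right _ _)))

/-- all together -/
theorem TD.str' (h : TD f U P Cr E ρ c R L) (hC : Clv P (f c)) : ∃ M, Mn f P M ∧ c ∈ M ∧ (∀ x ∈ P, x ∉ M → f x ∉ M) ∧ Rg M ∧ Clu M := by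
  obtain ⟨h1, h2, h3⟩ := h.str
  exact ⟨_, h1, h2, h3, mn_rg h.Pc h1 h.rg, mn_clu h.Pc h1 (subset_closure (ob_self _)) hC⟩

end main

end Pool.Agent.H93.AC
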